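import Pool.Agent.Run7.h152.DR.Defs

/-!
# Abelian varieties: definitions
-/

set_option autoImplicit false

open CategoryTheory AlgebraicGeometry Polynomial

universe u v

namespace Run7.h152.DR

open Pool.Agent.H914 Pool.Agent.H914.VarClass Pool.Agent.H914.VarClass.Obj
  Pool.Agent.H914.WeilCohomology

section Lin

variable {K : Type*} [Field K] {B : Type*} [Ring B] [Algebra K B]

/-- The hard Lefschetz theorem for the multiplication by `ξ` on the graded algebra `B`, centred in
degree `n`. -/
def HardLefs (gr : ℕ → Submodule K B) (n : ℕ) (ξ : B) : Prop :=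
  ∀ i ≤ n, (∀ a ∈ gr i, ξ ^ (n - i) * a = 0 → a = 0) ∧
    ∀ b ∈ gr (2 * n - i), ∃ a ∈ gr i, ξ ^ (n - i) * a = b

/-- The map `σ` is an automorphism of the graded algebra `B` which multiplies the linear form `tr` by
the constant `c`. -/
structure IsSim (gr : ℕ → Submodule K B) (tr : B → K) (σ : B → B) (c : K) : Prop where
  bij : Function.Bijective σ
  add : ∀ a b, σ (a + b) = σ a + σ b
  mul : ∀ a b, σ (a * b) = σ a * σ b
  smul : ∀ (t : K) a, σ (t • a) = t • σ a
  gr : ∀ i a, σ a ∈ gr i ↔ a ∈ gr i
  ne_zero : c ≠ 0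
  tr : ∀ a, tr (σ a) = c * tr a

/-- The map `σ` and its inverse map the elements of `C` to multiples of elements of `C`. -/
def Permutes (K : Type*) [Field K] {B : Type*} [Ring B] [Algebra K B] (C : Set B) (σ : B → B) :
    Prop :=
  ∀ a ∈ C, (∃ b ∈ C, ∃ t : K, σ a = t • b) ∧ ∃ b ∈ C, ∃ t : K, σ (t • b) = a

/-- The graded algebra is generated in degree one. -/
def GenOne (gr : ℕ → Submodule K B) : Prop := ∀ i, gr i ≤ gr 1 ^ i

/-- The operator `P(e)`, for a rational polynomial `P`. -/
noncomputable def evalQ [CharZero K] (P : ℚ[X]) (e : Module.End K B) : Module.End K B :=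
  aeval e (P.map (algebraMap ℚ K))

/-- The complex number `Q(z)` is the complex conjugate of `z` for each complex root `z` of `P`. -/
def ConjOnRoots (P Q : ℚ[X]) : Prop := ∀ z : ℂ, aeval z P = 0 → aeval z Q = starRingEnd ℂ z

/-- On the subspace `T`, `P(e) = 0` and the adjoint of `e` for the form `tr (x d y)` is `Q(e)`. -/
def AdjOn [CharZero K] (T : Submodule K B) (tr : B → K) (d : B) (e : Module.End K B)
    (P Q : ℚ[X]) : Prop :=
  (∀ x ∈ T, evalQ P e x = 0) ∧
    ∀ x ∈ T, ∀ y ∈ T, tr (e x * (d * y)) = tr (x * (d * evalQ Q e y))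

/-- For every irreducible polynomial `f` over `K` the kernel of `f(e)` on `T` is irreducible under the
operators in `C`: every subspace of `T` which is stable under these and contains a nonzero element of
the kernel contains the whole kernel. -/
def IrrKer (T : Submodule K B) (C : Set (B → B)) (e : Module.End K B) : Prop :=
  ∀ f : K[X], Irreducible f → ∀ U ≤ T, (∀ φ ∈ C, ∀ x ∈ U, φ x ∈ U) →
    (∃ x ∈ U, x ≠ 0 ∧ aeval e f x = 0) → ∀ y ∈ T, aeval e f y = 0 → y ∈ U

end Lin

variable {k : Type u} [Field k] {𝒱 : VarClass k} {ops : CycleOps 𝒱}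

/-- The classes of the cycles of codimension `p` on `X`. -/
def algC (W : WeilCohomology.{u, v} ops) (X : 𝒱.Obj) (p : ℕ) : Set (W.H X) :=
  {x | ∃ z, X.IsCyc p z ∧ clC W z = x}

/-- A symmetry of a Weil cohomology theory: a family of automorphisms `σ` of the graded algebras
`H(X)`, compatible with the two projections of a product, which multiply the orientations by
constants and map the classes of cycles to multiples of classes of cycles. For instance all
varieties in the class have models over a subfield `k₀` of `k`, and `σ` is the action of an element of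
the Galois group of `k₀` on the `ℓ`-adic cohomology. -/
structure Sym (W : WeilCohomology.{u, v} ops) where
  /-- the automorphisms -/
  σ : ∀ X : 𝒱.Obj, W.H X → W.H X
  sim : ∀ X, ∃ c, IsSim (W.gr X) (fun a => W.tr X a) (σ X) c
  cycles : ∀ X p, Permutes W.K (algC W X p) (σ X)
  fst : ∀ X Y a, pullC W (fst X Y) (σ X a) = σ (X.prod Y) (pullC W (fst X Y) a)
  snd : ∀ X Y a, pullC W (snd X Y) (σ Y a) = σ (X.prod Y) (pullC W (snd X Y) a)

/-- The operator on the cohomology of `X` given by the cycle `z` on `X × X`. -/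
noncomputable def corrC (W : WeilCohomology.{u, v} ops) {X : 𝒱.Obj} (z : (X.prod X).Cycles)
    (a : W.H X) : W.H X :=
  pushC W (snd X X) (clC W z * pullC W (fst X X) a)

/-- The operators of the cycles of codimension `dim X` on `X × X` and of the symmetries in `𝒢`. -/
def opers (W : WeilCohomology.{u, v} ops) (𝒢 : Set (Sym W)) (X : 𝒱.Obj) : Set (W.H X → W.H X) :=
  {φ | (∃ z, (X.prod X).IsCyc X.dim z ∧ φ = corrC W z) ∨ ∃ S ∈ 𝒢, φ = S.σ X}

/-- The cohomology of `A` behaves like that of an abelian variety with the addition `m`: it is generated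
by `H^1(A)`, and `m^* x = pr_1^* x + pr_2^* x` for `x` in `H^1(A)`; and hard Lefschetz holds for the
divisor `D`, the class of which is multiplied by constants by the symmetries in `𝒢`. -/
structure IsAbLike (W : WeilCohomology.{u, v} ops) (𝒢 : Set (Sym W)) (A : 𝒱.Obj)
    (m : A.prod A ⟶ A) (D : A.Cycles) : Prop where
  add : ∀ x ∈ W.gr A 1, pullC W m x = pullC W (fst A A) x + pullC W (snd A A) x
  gen : GenOne (W.gr A)
  div : A.IsCyc 1 D
  lef : HardLefs (W.gr A) A.dim (clC W D)
  scaled : ∀ S ∈ 𝒢, ∃ c : W.K, c ≠ 0 ∧ S.σ A (clC W D) = c • clC W D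

/-- The pull-back by an endomorphism, as an operator. -/
def pullE (W : WeilCohomology.{u, v} ops) {A : 𝒱.Obj} (e : A ⟶ A) : Module.End W.K (W.H A) :=
  (W.map e).toLinearMap

/-- The endomorphism `e` of `A` satisfies `P(e) = 0` on `H^1(A)` for the squarefree polynomial `P`, its
Rosati adjoint is its complex conjugate `Q(e)`, and the kernels of `f(e)` on `H^1(A)` are
irreducible under the algebraic correspondences and the symmetries in `𝒢`, for all irreducible
polynomials `f` over the coefficient field. For `ℓ`-adic cohomology and a Galois group `𝒢` this is true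
for every abelian variety and a generator `e` of the centre of its endomorphism algebra (Tate, Zarhin,
Mori, Faltings). -/
structure IsCentral (W : WeilCohomology.{u, v} ops) (𝒢 : Set (Sym W)) {A : 𝒱.Obj} (D : A.Cycles)
    (e : A ⟶ A) (P Q : ℚ[X]) : Prop where
  sqf : Squarefree P
  conj : ConjOnRoots P Q
  adj : AdjOn (W.gr A 1) (fun a => W.tr A a) (clC W D ^ (A.dim - 1)) (pullE W e) P Q
  irr : IrrKer (W.gr A 1) (opers W 𝒢 A) (pullE W e)

/-- `A` is an abelian variety. -/
def IsAbVar (W : WeilCohomology.{u, v} ops) (𝒢 : Set (Sym W)) (A : 𝒱.Obj) : Prop :=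
  ∃ m D e P Q, IsAbLike W 𝒢 A m D ∧ IsCentral W 𝒢 D e P Q

end Run7.h152.DR
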