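import Pool.Agent.H914R2.Weil

/-!
# Cycles and the strata of a degenerate special fibre: definitions
-/

set_option autoImplicit false

open CategoryTheory AlgebraicGeometry

universe u v u' v'

namespace Run7.h152.DR

open Pool.Agent.H914 Pool.Agent.H914.VarClass Pool.Agent.H914.VarClass.Obj
  Pool.Agent.H914.WeilCohomology

section Lin

/-- The map which sends the family `x` to the sum of the elements `e c • φ c (x (t c))` in the
components with the indices `s c`. -/
def signedSum {a b r : ℕ} {U : Fin a → Type v} {V : Fin b → Type v} [∀ j, AddCommGroup (V j)]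
    (s : Fin r → Fin b) (t : Fin r → Fin a) (e : Fin r → ℤ) (φ : ∀ c, U (t c) → V (s c))
    (x : ∀ i, U i) : ∀ j, V j :=
  ∑ c, e c • Pi.single (s c) (φ c (x (t c)))

/-- There are `a p` in `V p` with `τ (a 1) = x`, `ρ (a 1) + τ (a 3) = 0`, `ρ (a 3) + τ (a 5) = 0`, and
so on. (The `a p` with `p` even may be zero.) -/
def IsBdry {V : ℕ → Type v} [∀ p, AddCommGroup (V p)] (ρ : ∀ p, V p → V (p + 1))
    (τ : ∀ p, V (p + 1) → V p) (x : V 0) : Prop :=
  ∃ a : ∀ p, V p, τ 0 (a 1) = x ∧ ∀ p, ρ (p + 1) (a (p + 1)) + τ (p + 2) (a (p + 3)) = 0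

variable {K : Type*} [Field K] {V : Type*} [AddCommGroup V] [Module K V]

/-- The linear combination of the vectors `x i` with the coefficients `c i`. -/
def comb {r : ℕ} (c : Fin r → K) (x : Fin r → V) : V := ∑ i, c i • x i

/-- If no nontrivial combination of the vectors `x i` with rational coefficients is zero, then they
are linearly independent over `K`. -/
def IndepLifts [CharZero K] {r : ℕ} (x : Fin r → V) : Prop :=
  (∀ q : Fin r → ℚ, comb (fun i => (q i : K)) x = 0 → ∀ i, q i = 0) →
    ∀ c : Fin r → K, comb c x = 0 → ∀ i, c i = 0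

/-- A linear combination of the `x i` is zero if and only if the corresponding combination of the
`y i` satisfies `B`. -/
def RelationsIff {K₀ : Type*} [Field K₀] {V₀ : Type*} [AddCommGroup V₀] [Module K₀ V₀]
    (s : K →+* K₀) {r : ℕ} (x : Fin r → V) (y : Fin r → V₀) (B : V₀ → Prop) : Prop :=
  ∀ c : Fin r → K, comb c x = 0 ↔ B (comb (fun i => s (c i)) y)

end Lin

section

variable {k : Type u} [Field k] {𝒱 : VarClass k} {ops : CycleOps 𝒱}

/-- The pull-back in cohomology, as a map. -/
def pullC (W : WeilCohomology.{u, v} ops) {X Y : 𝒱.Obj} (g : Y ⟶ X) (x : W.H X) : W.H Y :=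
  W.map g x

/-- The push-forward in cohomology, as a map. -/
def pushC (W : WeilCohomology.{u, v} ops) {X Y : 𝒱.Obj} (g : Y ⟶ X) (y : W.H Y) : W.H X :=
  W.push g y

/-- The class of a cycle. -/
noncomputable def clC (W : WeilCohomology.{u, v} ops) {X : 𝒱.Obj} (z : X.Cycles) : W.H X :=
  W.cl X z

/-- Homological and numerical equivalence are the same for cycles of codimension `j` on `X`: the
class of a cycle of codimension `j` is zero if its intersection numbers with all cycles of the
complementary codimension vanish. -/
def HomNumAt (W : WeilCohomology.{u, v} ops) (X : 𝒱.Obj) (j : ℕ) : Prop :=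
  j ≤ X.dim → ∀ z, X.IsCyc j z →
    (∀ w, X.IsCyc (X.dim - j) w → X.V.degCycle (ops.mul z w) = 0) → clC W z = 0

/-- Conjecture D for `X`. -/
def ConjD (W : WeilCohomology.{u, v} ops) (X : 𝒱.Obj) : Prop := ∀ j, HomNumAt W X j

/-- Tate's conjecture `I` for `X` in codimension `j`: cycles of codimension `j` with classes which are
linearly independent over `ℚ` have classes which are linearly independent over the coefficient
field. -/
def TateInjective (W : WeilCohomology.{u, v} ops) (X : 𝒱.Obj) (j : ℕ) : Prop :=
  ∀ (r : ℕ) (z : Fin r → X.Cycles), (∀ i, X.IsCyc j (z i)) →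
    IndepLifts (K := W.K) fun i => clC W (z i)

/-- The direct sum of the cohomology algebras of the members of the finite family `Q`. -/
abbrev CohO (W : WeilCohomology.{u, v} ops) {a : ℕ} (Q : Fin a → 𝒱.Obj) : Type v :=
  ∀ i, W.H (Q i)

/-- Finitely many morphisms `map c`, with signs, from members of the family `R` to members of the
family `Q`. For instance `Q` are the components of the intersections of `p + 1` components of a special
fibre, `R` those of `p + 2` components, and the morphisms are the inclusions, with the usual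
alternating signs. -/
structure FacesO {a b : ℕ} (R : Fin b → 𝒱.Obj) (Q : Fin a → 𝒱.Obj) where
  /-- the number of morphisms -/
  r : ℕ
  /-- the source -/
  src : Fin r → Fin b
  /-- the target -/
  tgt : Fin r → Fin a
  /-- the sign -/
  sgn : Fin r → ℤ
  /-- the morphisms -/
  map : ∀ c, R (src c) ⟶ Q (tgt c)

namespace FacesO

variable {a b : ℕ} {R : Fin b → 𝒱.Obj} {Q : Fin a → 𝒱.Obj}

/-- The signed sum of the pull-backs: the restriction `ρ` from `⨁ H(Q i)` to `⨁ H(R j)`. -/
def res (F : FacesO R Q) (W : WeilCohomology.{u, v} ops) (x : CohO W Q) : CohO W R :=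
  signedSum F.src F.tgt F.sgn (fun c => pullC W (F.map c)) x

/-- The signed sum of the push-forwards: the Gysin map `τ` from `⨁ H(R j)` to `⨁ H(Q i)`. -/
def gys (F : FacesO R Q) (W : WeilCohomology.{u, v} ops) (y : CohO W R) : CohO W Q :=
  signedSum F.tgt F.src F.sgn (fun c => pushC W (F.map c)) y

end FacesO

/-- A sequence of finite families of varieties with morphisms between them: the components `Q p` of
the intersections of `p + 1` components of a special fibre, and their inclusions. -/
structure Tower (𝒱 : VarClass k) where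
  /-- the number of components of the intersections of `p + 1` components -/
  a : ℕ → ℕ
  /-- these components -/
  Q : ∀ p, Fin (a p) → 𝒱.Obj
  /-- the inclusions -/
  F : ∀ p, FacesO (Q (p + 1)) (Q p)

/-- The class `x` on the components of the special fibre is a boundary in the weight spectral
sequence. -/
def Tower.IsBoundary (W : WeilCohomology.{u, v} ops) (T : Tower 𝒱) (x : CohO W (T.Q 0)) : Prop :=
  IsBdry (V := fun p => CohO W (T.Q p)) (fun p => (T.F p).res W) (fun p => (T.F p).gys W) x

end

variable {k : Type u} [Field k] {𝒱 : VarClass k} {ops : CycleOps 𝒱}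
  {k₀ : Type u'} [Field k₀] {𝒱₀ : VarClass k₀} {ops₀ : CycleOps 𝒱₀}

/-- The cycles `z i` on `X` reduce to the cycles `z₀ i` on the components of the special fibre with
the strata `T`: a linear combination of the classes of the `z i`, with arbitrary coefficients, is zero
if and only if the corresponding combination of the classes of the `z₀ i` is a boundary in the weight
spectral sequence. -/
def ReduceTo (W : WeilCohomology.{u, v} ops) (W₀ : WeilCohomology.{u', v'} ops₀) {X : 𝒱.Obj}
    (T : Tower 𝒱₀) (s : W.K →+* W₀.K) {r : ℕ} (z : Fin r → X.Cycles)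
    (z₀ : Fin r → ∀ l, (T.Q 0 l).Cycles) : Prop :=
  RelationsIff s (fun i => clC W (z i))
    (fun i l => clC W₀ (z₀ i l)) (T.IsBoundary W₀)

/-- Finitely many cycles of codimension `j` on `X` reduce to cycles of codimension `j` on the components
of a special fibre (which depends on the cycles) all of whose strata satisfy the conjecture D. -/
def DegenerateReduction (W : WeilCohomology.{u, v} ops) (W₀ : WeilCohomology.{u', v'} ops₀)
    (X : 𝒱.Obj) (j : ℕ) : Prop :=
  ∀ (r : ℕ) (z : Fin r → X.Cycles), (∀ i, X.IsCyc j (z i)) →
    ∃ (T : Tower 𝒱₀) (s : W.K →+* W₀.K) (z₀ : Fin r → ∀ l, (T.Q 0 l).Cycles),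
      (∀ i l, (T.Q 0 l).IsCyc j (z₀ i l)) ∧ (∀ p l, ConjD W₀ (T.Q p l)) ∧
        ReduceTo W W₀ T s z z₀

end Run7.h152.DR
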