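import Pool.Agent.Run7.h152.DR.Num
import Pool.Agent.Run7.h152.DR.Defs

/-!
# The injectivity conjecture from the strata of a degenerate special fibre
-/

set_option autoImplicit false

open CategoryTheory AlgebraicGeometry

universe u v u' v'

namespace Run7.h152.DR

open Pool.Agent.H914 Pool.Agent.H914.VarClass Pool.Agent.H914.VarClass.Obj
  Pool.Agent.H914.WeilCohomology Pool.Agent.H281R3.HT Pool.Agent.W552

section Family

variable {k : Type u} [Field k] {𝒱 : VarClass k} {ops : CycleOps 𝒱}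
  {W : WeilCohomology.{u, v} ops} {a b : ℕ} {Q : Fin a → 𝒱.Obj} {R : Fin b → 𝒱.Obj}

/-- All components are sums of algebraic classes. -/
def ASO (W : WeilCohomology.{u, v} ops) (Q : Fin a → 𝒱.Obj) (x : CohO W Q) : Prop :=
  ∀ i, AS W (Q i) (x i)

variable (F : FacesO R Q)

lemma resO_apply (x : CohO W Q) : F.res W x = ∑ c, (F.sgn c : W.K) •
    (Pi.single (F.src c) (W.map (F.map c) (x (F.tgt c))) : CohO W R) := by
  change ∑ c, F.sgn c • (Pi.single (F.src c) (W.map (F.map c) (x (F.tgt c))) : CohO W R) = _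
  exact Finset.sum_congr rfl fun c _ => (Int.cast_smul_eq_zsmul _ _ _).symm

lemma gysO_apply (y : CohO W R) : F.gys W y = ∑ c, (F.sgn c : W.K) •
    (Pi.single (F.tgt c) (W.push (F.map c) (y (F.src c))) : CohO W Q) := by
  change ∑ c, F.sgn c • (Pi.single (F.tgt c) (W.push (F.map c) (y (F.src c))) : CohO W Q) = _
  exact Finset.sum_congr rfl fun c _ => (Int.cast_smul_eq_zsmul _ _ _).symm

lemma as_sum_single {ι : Type} (s : Finset ι) (n : ι → ℤ) (t : ι → Fin a)
    (v : ∀ c, W.H (Q (t c))) (hv : ∀ c, AS W _ (v c)) :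
    ASO W Q (∑ c ∈ s, (n c : W.K) • (Pi.single (t c) (v c) : CohO W Q)) := by
  intro l
  rw [Finset.sum_apply]
  apply AS.ratSub.sum
  intro c _
  rw [Pi.smul_apply]
  have h1 : (n c : W.K) = ((n c : ℚ) : W.K) := by push_cast; rfl
  rw [h1]
  apply AS.smul
  by_cases hl : l = t c
  · subst hl
    rw [Pi.single_eq_same]
    exact hv c
  · rw [Pi.single_eq_of_ne hl]
    exact AS.zero

variable {F} in
lemma ASO.res {x : CohO W Q} (hx : ASO W Q x) : ASO W R (F.res W x) := by
  rw [resO_apply]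
  exact as_sum_single _ _ _ _ fun c => (hx _).map _

variable {F} in
lemma ASO.gys {y : CohO W R} (hy : ASO W R y) : ASO W Q (F.gys W y) := by
  rw [gysO_apply]
  exact as_sum_single _ _ _ _ fun c => (hy _).push _

lemma ASO.zero : ASO W Q 0 := fun _ => AS.zero

lemma ASO.add {x y : CohO W Q} (hx : ASO W Q x) (hy : ASO W Q y) : ASO W Q (x + y) :=
  fun i => (hx i).add (hy i)

/-- The sum of the traces of the products. -/
noncomputable def trO (x y : CohO W Q) : W.K := ∑ i, W.tr (Q i) (x i * y i)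

lemma trO_add (x x' y : CohO W Q) : trO (x + x') y = trO x y + trO x' y := by
  simp only [trO, Pi.add_apply, add_mul, map_add, Finset.sum_add_distrib]

lemma trO_smul (c : W.K) (x y : CohO W Q) : trO (c • x) y = c * trO x y := by
  simp only [trO, Pi.smul_apply, smul_mul_assoc, map_smul, smul_eq_mul, Finset.mul_sum]

lemma trO_zero (y : CohO W Q) : trO 0 y = 0 := by
  simp [trO]

lemma trO_comm {x : CohO W Q} (hx : ASO W Q x) (y : CohO W Q) : trO x y = trO y x := by
  unfold trO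
  exact Finset.sum_congr rfl fun i _ => by rw [(hx i).comm]

lemma trO_single (y : CohO W Q) (i : Fin a) (w : W.H (Q i)) :
    trO y (Pi.single i w) = W.tr (Q i) (y i * w) := by
  rw [trO, Finset.sum_eq_single i]
  · rw [Pi.single_eq_same]
  · intro j _ hj
    rw [Pi.single_eq_of_ne hj, mul_zero, map_zero]
  · intro h; exact absurd (Finset.mem_univ _) h

lemma trO_gys (y : CohO W R) (x : CohO W Q) : trO (F.gys W y) x = trO y (F.res W x) := by
  have e1 : trO (F.gys W y) x = ∑ c, (F.sgn c : W.K) *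
      W.tr _ (W.push (F.map c) (y (F.src c)) * x (F.tgt c)) := by
    rw [gysO_apply, trO]
    simp only [Finset.sum_apply, Finset.sum_mul, map_sum, Pi.smul_apply, smul_mul_assoc,
      map_smul, smul_eq_mul]
    rw [Finset.sum_comm]
    apply Finset.sum_congr rfl
    intro c _
    rw [Finset.sum_eq_single (F.tgt c)]
    · rw [Pi.single_eq_same]
    · intro j _ hj
      rw [Pi.single_eq_of_ne hj, zero_mul, map_zero, mul_zero]
    · intro h; exact absurd (Finset.mem_univ _) h
  have e2 : trO y (F.res W x) = ∑ c, (F.sgn c : W.K) *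
      W.tr _ (y (F.src c) * W.map (F.map c) (x (F.tgt c))) := by
    rw [resO_apply, trO]
    simp only [Finset.sum_apply, Finset.mul_sum, map_sum, Pi.smul_apply, mul_smul_comm,
      map_smul, smul_eq_mul]
    rw [Finset.sum_comm]
    apply Finset.sum_congr rfl
    intro c _
    rw [Finset.sum_eq_single (F.src c)]
    · rw [Pi.single_eq_same]
    · intro j _ hj
      rw [Pi.single_eq_of_ne hj, mul_zero, map_zero, mul_zero]
    · intro h; exact absurd (Finset.mem_univ _) h
  rw [e1, e2]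
  exact Finset.sum_congr rfl fun c _ => by rw [W.tr_push]

/-- The family `y` of algebraic classes represents `ψ (tr (x · ))`. -/
structure Rep (ψ : W.K →ₗ[ℚ] ℚ) (x y : CohO W Q) : Prop where
  as : ASO W Q y
  tr : ∀ w, ASO W Q w → trO y w = ((ψ (trO x w) : ℚ) : W.K)

variable {ψ : W.K →ₗ[ℚ] ℚ}

lemma Rep.exists (hD : ∀ i, HomEqNum W (Q i)) (ψ : W.K →ₗ[ℚ] ℚ) (x : CohO W Q) :
    ∃ y, Rep ψ x y := by
  choose y hy hy' using fun i => exists_rep (hD i) ψ (x i)
  refine ⟨y, hy, fun w hw => ?_⟩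
  rw [trO, trO, map_sum, Rat.cast_sum]
  exact Finset.sum_congr rfl fun i _ => hy' i _ (hw i)

lemma Rep.unique (hD : ∀ i, HomEqNum W (Q i)) {x y y' : CohO W Q} (h : Rep ψ x y)
    (h' : Rep ψ x y') : y = y' := by
  funext i
  rw [← sub_eq_zero]
  apply as_eq_zero (hD i) (AS.ratSub.sub (h.as i) (h'.as i))
  intro w hw
  have hs : ASO W Q (Pi.single i w) := by
    intro j
    by_cases hj : j = i
    · subst hj; rw [Pi.single_eq_same]; exact hw
    · rw [Pi.single_eq_of_ne hj]; exact AS.zero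
  have h1 := h.tr _ hs
  have h2 := h'.tr _ hs
  rw [trO_single] at h1 h2
  rw [sub_mul, map_sub, h1, h2, sub_self]

lemma Rep.zero : Rep ψ (0 : CohO W Q) 0 :=
  ⟨ASO.zero, fun w _ => by rw [trO_zero, map_zero, Rat.cast_zero]⟩

lemma Rep.add {x y x' y' : CohO W Q} (h : Rep ψ x y) (h' : Rep ψ x' y') :
    Rep ψ (x + x') (y + y') :=
  ⟨h.as.add h'.as, fun w hw => by
    rw [trO_add, trO_add, h.tr w hw, h'.tr w hw, map_add, Rat.cast_add]⟩

lemma Rep.res {x y : CohO W Q} (h : Rep ψ x y) : Rep ψ (F.res W x) (F.res W y) :=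
  ⟨h.as.res, fun w hw => by
    rw [trO_comm h.as.res, ← trO_gys, trO_comm hw.gys, h.tr _ hw.gys, ← trO_comm hw.gys,
      trO_gys, trO_comm hw]⟩

lemma Rep.gys {x y : CohO W R} (h : Rep ψ x y) : Rep ψ (F.gys W x) (F.gys W y) :=
  ⟨h.as.gys, fun w hw => by rw [trO_gys, trO_gys, h.tr _ hw.res]⟩

lemma trO_rat {x y : CohO W Q} (hx : ASO W Q x) (hy : ASO W Q y) : ∃ q : ℚ, trO x y = q := by
  choose q hq using fun i => ((hx i).mul (hy i)).tr
  refine ⟨∑ i, q i, ?_⟩
  rw [trO, Rat.cast_sum]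
  exact Finset.sum_congr rfl fun i _ => hq i

lemma Rep.smul {x : CohO W Q} (hx : ASO W Q x) (c : W.K) :
    Rep ψ (c • x) (((ψ c : ℚ) : W.K) • x) :=
  ⟨fun i => (hx i).smul _, fun w hw => by
    obtain ⟨q, hq⟩ := trO_rat hx hw
    rw [trO_smul, trO_smul, hq, psi_mul, Rat.cast_mul]⟩

lemma Rep.comb {r : ℕ} {x : Fin r → CohO W Q} (hx : ∀ i, ASO W Q (x i)) (c : Fin r → W.K) :
    Rep ψ (comb c x) (comb (fun i => ((ψ (c i) : ℚ) : W.K)) x) := by
  classical
  unfold DR.comb
  have key : ∀ s : Finset (Fin r), Rep ψ (∑ i ∈ s, c i • x i)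
      (∑ i ∈ s, ((ψ (c i) : ℚ) : W.K) • x i) := by
    intro s
    induction s using Finset.induction_on with
    | empty => rw [Finset.sum_empty, Finset.sum_empty]; exact Rep.zero
    | insert i s hi ih =>
      rw [Finset.sum_insert hi, Finset.sum_insert hi]
      exact (Rep.smul (hx i) (c i)).add ih
  exact key Finset.univ

/-- **Rational solutions of the boundary equations.** -/
theorem IsBoundary.rational {T : Tower 𝒱} (hD : ∀ p l, HomEqNum W (T.Q p l)) {r : ℕ}
    {x : Fin r → CohO W (T.Q 0)} (hx : ∀ i, ASO W (T.Q 0) (x i)) {c : Fin r → W.K}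
    (h : T.IsBoundary W (comb c x)) (ψ : W.K →ₗ[ℚ] ℚ) :
    T.IsBoundary W (comb (fun i => ((ψ (c i) : ℚ) : W.K)) x) := by
  obtain ⟨a, ha, ha'⟩ := h
  choose b hb using fun p => Rep.exists (hD p) ψ (a p)
  refine ⟨b, ?_, fun p => ?_⟩
  · have h1 : Rep ψ (comb c x) ((T.F 0).gys W (b 1)) := by
      rw [← ha]; exact (hb 1).gys _
    exact h1.unique (hD 0) (Rep.comb hx c)
  · have h1 : Rep ψ (0 : CohO W (T.Q (p + 2)))
        ((T.F (p + 1)).res W (b (p + 1)) + (T.F (p + 2)).gys W (b (p + 3))) := by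
      rw [← ha' p]
      exact ((hb (p + 1)).res _).add ((hb (p + 3)).gys _)
    exact h1.unique (hD (p + 2)) Rep.zero

end Family

variable {k : Type u} [Field k] {𝒱 : VarClass k} {ops : CycleOps 𝒱}
  {k₀ : Type u'} [Field k₀] {𝒱₀ : VarClass k₀} {ops₀ : CycleOps 𝒱₀}
  {W : WeilCohomology.{u, v} ops} {W₀ : WeilCohomology.{u', v'} ops₀}
  {X : 𝒱.Obj} {j : ℕ}

/-- **The conjecture D for the strata of a degenerate reduction implies the injectivity
conjecture.** -/
theorem DegenerateReduction.injective (h : DegenerateReduction W W₀ X j) :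
    TateInjective W X j := by
  intro n z hz hq c hc
  obtain ⟨T, s, z₀, hz₀, hD, hR⟩ := h n z hz
  by_contra hcon
  push Not at hcon
  obtain ⟨i₀, hi₀⟩ := hcon
  obtain ⟨ψ, hψ⟩ := Module.Projective.exists_dual_eq_one ℚ
    (show s (c i₀) ≠ 0 from fun h0 => hi₀ ((map_eq_zero s).1 h0))
  have h1 := (hR c).1 hc
  have h2 := IsBoundary.rational (fun p l i hi => hD p l i hi)
    (fun i l => AS.of ⟨z₀ i l, hz₀ i l, rfl⟩) h1 ψ
  have h3 : (fun i => ((ψ (s (c i)) : ℚ) : W₀.K)) =
      fun i => s (((ψ (s (c i)) : ℚ) : W.K)) := by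
    funext i
    rw [map_ratCast]
  rw [h3] at h2
  have h4 := (hR fun i => ((ψ (s (c i)) : ℚ) : W.K)).2 h2
  have h5 := hq (fun i => ψ (s (c i))) h4 i₀
  rw [hψ] at h5
  exact one_ne_zero h5

end Run7.h152.DR
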