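import Pool.Agent.Run7.h152.DR.AbDefs
import Pool.Agent.Run7.h152.DR.Fam
import Pool.Agent.Run7.h152.LI.Main

/-!
# The injectivity conjecture implies the conjecture D for abelian varieties times varieties with D
-/

set_option autoImplicit false

open CategoryTheory AlgebraicGeometry Polynomial

universe u v

namespace Run7.h152.DR

open Pool.Agent.H914 Pool.Agent.H914.VarClass Pool.Agent.H914.VarClass.Obj
  Pool.Agent.H914.WeilCohomology Pool.Agent.R908 Run7.h152.LI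

section Lin

variable {K : Type*} [Field K] {B : Type*} [Ring B] [Algebra K B] {gr : ℕ → Submodule K B}
  {tr : B →ₗ[K] K} {σ : B → B} {c : K}

lemma IsSim.map_one (h : IsSim gr tr σ c) : σ 1 = 1 := by
  obtain ⟨a, ha⟩ := h.bij.2 1
  have h1 := h.mul 1 a
  rw [one_mul, ha, mul_one] at h1
  exact h1.symm

/-- The automorphism of algebras. -/
noncomputable def IsSim.equiv (h : IsSim gr tr σ c) : B ≃ₐ[K] B :=
  AlgEquiv.ofBijective
    (AlgHom.ofLinearMap ⟨⟨σ, h.add⟩, h.smul⟩ h.map_one h.mul) h.bij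

lemma IsSim.equiv_apply (h : IsSim gr tr σ c) (a : B) : h.equiv a = σ a := rfl

lemma IsSim.isSimilitude (h : IsSim gr tr σ c) : IsSimilitude gr tr h.equiv c :=
  ⟨h.ne_zero, h.gr, h.tr⟩

lemma HardLefs.hardLef {n : ℕ} {ξ : B} (h : HardLefs gr n ξ) :
    HardLef gr n (LinearMap.mulLeft K ξ) := by
  intro i hi
  rw [LinearMap.pow_mulLeft]
  exact h i hi

end Lin

variable {k : Type u} [Field k] {𝒱 : VarClass k} {ops : CycleOps 𝒱}
  {W : WeilCohomology.{u, v} ops}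

/-- The automorphisms of a symmetry. -/
noncomputable def Sym.equiv (S : Sym W) (X : 𝒱.Obj) : W.H X ≃ₐ[W.K] W.H X :=
  (S.sim X).choose_spec.equiv

lemma Sym.equiv_apply (S : Sym W) (X : 𝒱.Obj) (a : W.H X) : S.equiv X a = S.σ X a := rfl

/-- Symmetries in the sense of the starting modules. -/
noncomputable def Sym.toSymmetry (S : Sym W) : Symmetry W where
  σ := S.equiv
  c X := (S.sim X).choose
  sim X := (S.sim X).choose_spec.isSimilitude
  monoidal X Y := ⟨fun a => S.fst X Y a, fun a => S.snd X Y a⟩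
  cycles X := by
    have h1 : ∀ (p : ℕ), (spanCycles W X p).map (S.equiv X).toLinearMap ≤ spanCycles W X p := by
      intro p
      rw [spanCycles, Submodule.map_span, Submodule.span_le]
      rintro _ ⟨a, ⟨q, hq, z, hz, rfl⟩, rfl⟩
      obtain rfl : q = p := by exact_mod_cast hq
      obtain ⟨⟨b, ⟨w, hw, rfl⟩, t, ht⟩, -⟩ := S.cycles X q _ ⟨z, hz, rfl⟩
      change S.σ X (W.cl X z) ∈ _
      have ht' : S.σ X (W.cl X z) = t • W.cl X w := ht
      rw [ht']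
      exact Submodule.smul_mem _ _ (Submodule.subset_span ⟨q, rfl, w, hw, rfl⟩)
    have h2 : ∀ (p : ℕ), spanCycles W X p ≤ (spanCycles W X p).map (S.equiv X).toLinearMap := by
      intro p
      conv_lhs => rw [spanCycles]
      rw [Submodule.span_le]
      rintro a ⟨q, hq, z, hz, rfl⟩
      obtain rfl : q = p := by exact_mod_cast hq
      obtain ⟨-, b, ⟨w, hw, rfl⟩, t, ht⟩ := S.cycles X q _ ⟨z, hz, rfl⟩
      exact ⟨t • W.cl X w, Submodule.smul_mem _ _ (Submodule.subset_span ⟨q, rfl, w, hw, rfl⟩),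
        ht⟩
    intro p a
    constructor
    · intro ha
      obtain ⟨b, hb, hba⟩ := h2 p ha
      have h3 : b = a := (S.equiv X).injective hba
      rw [← h3]
      exact hb
    · intro ha
      exact h1 p ⟨a, ha, rfl⟩

lemma corrC_eq {X : 𝒱.Obj} (z : (X.prod X).Cycles) (a : W.H X) :
    W.corr (W.cl (X.prod X) z) a = corrC W z a := by
  rw [W.corr_apply]
  rfl

theorem IsAbLike.isAbelianType {𝒢 : Set (Sym W)} {A : 𝒱.Obj} {m : A.prod A ⟶ A} {D : A.Cycles}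
    (h : IsAbLike W 𝒢 A m D) : IsAbelianType (Sym.toSymmetry '' 𝒢) A m D where
  abelianLike := ⟨h.add, h.gen⟩
  divisor := h.div
  lefschetz := h.lef.hardLef
  scaled := by
    rintro _ ⟨S, hS, rfl⟩
    exact h.scaled S hS

theorem IsCentral.isRosati {𝒢 : Set (Sym W)} {A : 𝒱.Obj} {D : A.Cycles} {e : A ⟶ A}
    {P Q : ℚ[X]} (h : IsCentral W 𝒢 D e P Q) : IsRosati W D e P Q :=
  ⟨⟨h.sqf, h.conj⟩, h.adj.1, h.adj.2⟩

theorem IsCentral.irreducible {𝒢 : Set (Sym W)} {A : 𝒱.Obj} {D : A.Cycles} {e : A ⟶ A}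
    {P Q : ℚ[X]} (h : IsCentral W 𝒢 D e P Q) :
    IrreducibleKernels (Sym.toSymmetry '' 𝒢) A e P := by
  intro f hf _ U hU h1 h2 h3
  refine h.irr f hf U hU ?_ h3
  rintro φ (⟨z, hz, rfl⟩ | ⟨S, hS, rfl⟩) x hx
  · rw [← corrC_eq]
    exact h1 _ ⟨z, hz, rfl⟩ x hx
  · exact h2 _ ⟨S.toSymmetry, ⟨S, hS, rfl⟩, rfl⟩ x hx

lemma TateInjective.injectiveAt {X : 𝒱.Obj} {j : ℕ} (h : TateInjective W X j) :
    InjectiveAt W X j := by
  intro n z hz hq
  rw [Fintype.linearIndependent_iff]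
  refine h n z hz ?_
  intro q hq0
  apply hq
  rw [map_sum, ← hq0, comb]
  apply Finset.sum_congr rfl
  intro i _
  rw [W.cl_smul]
  rfl

theorem IsAbVar.homNumAt {𝒢 : Set (Sym W)} {A : 𝒱.Obj} (hA : IsAbVar W 𝒢 A) {𝒴 : Set 𝒱.Obj}
    (hp : ∀ Y ∈ 𝒴, ∀ Z ∈ 𝒴, Y.prod Z ∈ 𝒴) (hY : ∀ Y ∈ 𝒴, ConjD W Y) {Y : 𝒱.Obj} (hYY : Y ∈ 𝒴)
    {j : ℕ} (hI : TateInjective W (A.prod Y) j) : HomNumAt W (A.prod Y) j := by
  obtain ⟨m, D, e, P, Q, h1, h2⟩ := hA
  have hcl : ∀ Z, IsProductOf 𝒴 Z → Z ∈ 𝒴 := by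
    intro Z hZ
    induction hZ with
    | base h => exact h
    | prod _ _ h h' => exact hp _ h _ h'
  have key := homEqNumAt_of_injective h1.isAbelianType h2.isRosati h2.irreducible
    (𝒴 := 𝒴) (fun Z hZ i hi => hY Z (hcl Z hZ) i hi) (IsProductOf.base hYY) hI.injectiveAt
  intro hj z hz hw
  exact key z ⟨hj, hz, hw⟩

end Run7.h152.DR
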