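import Pool.Agent.W552.Fr
import Pool.Agent.H914R2.DDefs

/-!
# Rational representatives of cohomology classes, under the conjecture D
-/

set_option autoImplicit false

open CategoryTheory AlgebraicGeometry

universe u v

namespace Run7.h152.DR

open Pool.Agent.H914 Pool.Agent.H914.VarClass Pool.Agent.H914.VarClass.Obj
  Pool.Agent.H914.WeilCohomology Pool.Agent.H281R3.HT Pool.Agent.W552

variable {k : Type u} [Field k] {𝒱 : VarClass k} {ops : CycleOps 𝒱}
  {W : WeilCohomology.{u, v} ops} {Y : 𝒱.Obj}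

lemma psi_mul {K : Type*} [Field K] [CharZero K] (ψ : K →ₗ[ℚ] ℚ) (x : K) (r : ℚ) :
    ψ (x * (r : K)) = ψ x * r := by
  have h1 : x * (r : K) = r • x := by rw [mul_comm, Rat.smul_def]
  rw [h1, map_smul, smul_eq_mul, mul_comm]

lemma psi_mul' {K : Type*} [Field K] [CharZero K] (ψ : K →ₗ[ℚ] ℚ) (x : K) (r : ℚ) :
    ψ ((r : K) * x) = r * ψ x := by
  rw [mul_comm, psi_mul, mul_comm]

/-- The conjecture D for sums of algebraic classes. -/
lemma as_eq_zero (hD : HomEqNum W Y) {y : W.H Y} (hy : AS W Y y)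
    (h : ∀ w, AS W Y w → W.tr Y (y * w) = 0) : y = 0 := by
  rw [Fr.AS_sum hy]
  apply Finset.sum_eq_zero
  intro j hj
  have hj' : j ≤ Y.dim := by
    have := Finset.mem_range.1 hj
    omega
  obtain ⟨z, hz, hzy⟩ := hy.proj j
  rw [← hzy]
  apply hD j hj' z hz
  intro w hw
  have h1 : W.tr Y (W.cl Y z * W.cl Y w) = W.tr Y (y * W.cl Y w) := by
    conv_rhs => rw [Fr.AS_sum hy]
    rw [Finset.sum_mul, map_sum, Finset.sum_eq_single j]
    · rw [hzy]
    · intro i _ hi
      apply W.tr_eq_zero (W.mul_mem (proj_mem _ _ _) (W.cl_mem hw))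
      omega
    · intro h0; exact absurd hj h0
  have h2 : ((Y.V.degCycle (ops.mul z w) : ℚ) : W.K) = 0 := by
    rw [← W.tr_cl, W.cl_mul, h1]
    · exact h _ (AS.of ⟨w, hw, rfl⟩)
    · have := ops.mul_mem hz hw
      rwa [Nat.add_sub_cancel' hj'] at this
  exact_mod_cast h2

/-- **Rational representatives.** Under the conjecture D, for each `ℚ`-linear form `ψ` on the
coefficient field and each class `x` there is an algebraic class `y` with
`tr (y w) = ψ (tr (x w))` for all algebraic classes `w`. -/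
theorem exists_rep (hD : HomEqNum W Y) (ψ : W.K →ₗ[ℚ] ℚ) (x : W.H Y) :
    ∃ y, AS W Y y ∧ ∀ w, AS W Y w → W.tr Y (y * w) = ((ψ (W.tr Y (x * w)) : ℚ) : W.K) := by
  classical
  obtain ⟨S, hSA, hSspan, hSli⟩ := exists_linearIndependent W.K {v : W.H Y | AS W Y v}
  have hfin : S.Finite := hSli.setFinite
  have := hfin.fintype
  have hSc : ∀ i : S, AS W Y (i : W.H Y) := fun i => hSA i.2
  choose g hg using fun i l : S => ((hSc i).mul (hSc l)).tr
  set c : (S → ℚ) → W.H Y := fun r => ∑ i : S, (r i : W.K) • (i : W.H Y) with hc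
  have hcA : ∀ r, AS W Y (c r) := fun r => AS.ratSub.sum _ (fun i _ => AS.smul _ (hSc i))
  have hc0 : ∀ r, c r = 0 → r = 0 := by
    intro r hr
    funext i
    have := Fintype.linearIndependent_iff.1 hSli (fun i => (r i : W.K)) hr i
    exact_mod_cast this
  set T : (S → ℚ) →ₗ[ℚ] (S → ℚ) := Matrix.vecMulLinear (Matrix.of g) with hT
  have hcT : ∀ (r : S → ℚ) (l : S), W.tr Y (c r * (l : W.H Y)) = ((T r l : ℚ) : W.K) := by
    intro r l
    rw [hc, hT]
    beta_reduce
    rw [Finset.sum_mul, map_sum, Matrix.vecMulLinear_apply, Matrix.vecMul, dotProduct,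
      Rat.cast_sum]
    apply Finset.sum_congr rfl
    intro i _
    rw [smul_mul_assoc, map_smul, hg, smul_eq_mul, Matrix.of_apply, Rat.cast_mul]
  -- an algebraic class orthogonal to `S` is zero
  have horth : ∀ y, AS W Y y → (∀ l : S, W.tr Y (y * (l : W.H Y)) = 0) → y = 0 := by
    intro y hy h
    apply as_eq_zero hD hy
    intro w hw
    have hw' : w ∈ Submodule.span W.K S := by
      rw [hSspan]; exact Submodule.subset_span hw
    refine Submodule.span_induction (p := fun w _ => W.tr Y (y * w) = 0) ?_ ?_ ?_ ?_ hw'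
    · intro w hw; exact h ⟨w, hw⟩
    · rw [mul_zero, map_zero]
    · intro a b _ _ ha hb; rw [mul_add, map_add, ha, hb, add_zero]
    · intro t a _ ha; rw [mul_smul_comm, map_smul, ha, smul_zero]
  have hinj : Function.Injective T := by
    rw [injective_iff_map_eq_zero]
    intro r hr
    apply hc0
    apply horth _ (hcA r)
    intro l
    rw [hcT, hr, Pi.zero_apply, Rat.cast_zero]
  have hsurj : Function.Surjective T := LinearMap.injective_iff_surjective.1 hinj
  have hrat : ∀ w, AS W Y w → ∃ q, w = c q := by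
    intro w hw
    choose t ht using fun l : S => (hw.mul (hSc l)).tr
    obtain ⟨q, hq⟩ := hsurj t
    refine ⟨q, ?_⟩
    rw [← sub_eq_zero]
    apply horth _ (AS.ratSub.sub hw (hcA q))
    intro l
    rw [sub_mul, map_sub, hcT, hq, ht, sub_self]
  obtain ⟨r, hr⟩ := hsurj fun l => ψ (W.tr Y (x * (l : W.H Y)))
  refine ⟨c r, hcA r, ?_⟩
  intro w hw
  obtain ⟨q, rfl⟩ := hrat w hw
  have h1 : ∀ y : W.H Y, W.tr Y (y * c q) = ∑ l, (q l : W.K) * W.tr Y (y * (l : W.H Y)) := by
    intro y
    rw [hc]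
    beta_reduce
    rw [Finset.mul_sum, map_sum]
    apply Finset.sum_congr rfl
    intro l _
    rw [mul_smul_comm, map_smul, smul_eq_mul]
  rw [h1, h1, map_sum, Rat.cast_sum]
  apply Finset.sum_congr rfl
  intro l _
  rw [hcT, hr, psi_mul', Rat.cast_mul]

end Run7.h152.DR
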